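import Mathlib
import Pool.Graph.R_pool_sql_team_ae5b0c61.Results.MP_f00d09_gt.DiamondCex
import Pool.Graph.R_seed8.Helper639.ForceCH

/-!
# MP_f00d09_gt: Lindelöf spaces with Menger countable closures are consistently not D-spaces

First part: some notion of forcing preserves `ω₁` and forces Jensen's principle `◊` (the forcing
language is the one of `Pool.Agent.Helper639.ForceCH`).
Second part: `◊` gives a regular hereditarily Lindelöf space all of whose countable subsets have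
countable closures (so that these closures are Menger) and which is not a D-space.
So there is a counterexample to Q2, and hence to Q1, consistent with ZFC.
-/

set_option autoImplicit false

namespace Pool.Agent.Results.MP_f00d09_gt.ConsistentlyNo

open Set Cardinal Order
open Pool.Agent.Helper639.ForceCH (Om OmegaOnePreserved DiamondHolds)

/-- `C` is a closed unbounded subset of `ω₁` (the sentence named by `IsClubName`). -/
def IsClubSet (C : Om → Prop) : Prop :=
  (∀ a : Om, ∃ b : Om, a < b ∧ C b) ∧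
    ∀ a : Om, (∃ b, b < a) → (∀ b : Om, b < a → ∃ c : Om, (b < c ∧ c < a) ∧ C c) → C a

/-- Jensen's principle `◊`: the sentence which `DiamondHolds P` says is forced, evaluated in the
universe. -/
def Diamond : Prop :=
  ∃ A : Om → Om → Prop, ∀ S : Om → Prop, ∀ C : Om → Prop,
    IsClubSet C → ∃ a : Om, C a ∧ ∀ b : Om, b < a → (S b ↔ A a b)

/-- `X` is a D-space. -/
def IsDSpace (X : Type) [TopologicalSpace X] : Prop :=
  ∀ N : X → Set X, (∀ x, IsOpen (N x) ∧ x ∈ N x) →
    ∃ D : Set X, IsClosed D ∧ DiscreteTopology D ∧ (⋃ d ∈ D, N d) = Set.univ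

/-- `X` is a Menger space. -/
def IsMenger (X : Type) [TopologicalSpace X] : Prop :=
  ∀ U : ℕ → Set (Set X), (∀ n, (∀ O ∈ U n, IsOpen O) ∧ ⋃₀ U n = Set.univ) →
    ∃ V : ℕ → Set (Set X), (∀ n, V n ⊆ U n ∧ (V n).Finite) ∧ ⋃ n, ⋃₀ V n = Set.univ

/-- `X` has Menger countable closures. -/
def MengerCountableClosures (X : Type) [TopologicalSpace X] : Prop :=
  ∀ A : Set X, A.Countable → IsMenger (closure A)

theorem dia_of_diamond (h : Diamond) : Pool.Agent.H33.DiaDefs.Diamond := by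
  obtain ⟨A, hA⟩ := h
  have key : ∀ o : Ordinal.{0}, o = (ℵ₁ : Cardinal.{0}).ord → ∀ (_ : NoMaxOrder o.ToType),
      (∃ A : o.ToType → o.ToType → Prop, ∀ S : o.ToType → Prop, ∀ C : o.ToType → Prop,
        ((∀ a : o.ToType, ∃ b : o.ToType, a < b ∧ C b) ∧
          ∀ a : o.ToType, (∃ b, b < a) →
            (∀ b : o.ToType, b < a → ∃ c : o.ToType, (b < c ∧ c < a) ∧ C c) → C a) →
          ∃ a : o.ToType, C a ∧ ∀ b : o.ToType, b < a → (S b ↔ A a b)) →
      ∃ D : o.ToType → Set o.ToType, ∀ Y : Set o.ToType,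
        IsStationary {δ | Y ∩ Iio δ = D δ} := by
    intro o _ _ ⟨A, hA⟩
    refine ⟨fun a => {b | b < a ∧ A a b}, fun Y C hC => ?_⟩
    have c1 : ∀ a : o.ToType, ∃ b : o.ToType, a < b ∧ b ∈ C := fun a => by
      obtain ⟨a', ha'⟩ := exists_gt a
      obtain ⟨b, hb, hb'⟩ := hC.isCofinal a'
      exact ⟨b, ha'.trans_le hb', hb⟩
    have c2 : ∀ a : o.ToType, (∃ b, b < a) →
        (∀ b : o.ToType, b < a → ∃ c : o.ToType, (b < c ∧ c < a) ∧ c ∈ C) → a ∈ C := by
      intro a h3 h4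
      obtain ⟨b0, hb0⟩ := h3
      obtain ⟨c0, hc0, hc0'⟩ := h4 b0 hb0
      refine hC.isLUB_mem (t := {c | c ∈ C ∧ c < a}) (fun c hc => hc.1) ⟨c0, hc0', hc0.2⟩
        ⟨fun c hc => hc.2.le, fun b hb => ?_⟩
      by_contra h5
      obtain ⟨c, hc, hc'⟩ := h4 b (not_le.1 h5)
      exact absurd (hb ⟨hc', hc.2⟩) (not_le.2 hc.1)
    obtain ⟨a, h1, h2⟩ := hA (fun b => b ∈ Y) (fun b => b ∈ C) ⟨c1, c2⟩
    refine ⟨a, ?_, h1⟩
    ext b
    simp only [mem_inter_iff, mem_Iio, Set.mem_ofPred_eq]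
    exact ⟨fun h => ⟨h.2, (h2 b h.2).1 h.1⟩, fun h => ⟨(h2 b h.1).2 h.2, h.1⟩⟩
  exact key _ rfl inferInstance ⟨A, hA⟩

/-- **It is consistent that some regular hereditarily Lindelöf space with Menger countable closures
is not a D-space.** -/
theorem result :
    (∃ (P : Type) (_ : Preorder P), Nonempty P ∧
      ∀ p : P, p ∈ OmegaOnePreserved P ∧ p ∈ DiamondHolds P) ∧
    (Diamond → ∃ (X : Type) (_ : TopologicalSpace X), T3Space X ∧ HereditarilyLindelofSpace X ∧
      MengerCountableClosures X ∧ (∀ A : Set X, A.Countable → (closure A).Countable) ∧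
      ¬ IsDSpace X) := by
  refine ⟨?_, fun hd => ?_⟩
  · obtain ⟨P, i, hn, h⟩ := Pool.Agent.Helper639.ForceCH.exists_forcing
    exact ⟨P, i, hn, fun p => ⟨(h p).1, (h p).2.1⟩⟩
  · obtain ⟨X, τ, h1, h2, h3, h4⟩ :=
      Pool.Agent.Results.MP_f00d09_gt.DiamondCex.result (dia_of_diamond hd)
    exact ⟨X, τ, h1, h2, fun A hA => (h3 A hA).2, fun A hA => (h3 A hA).1, h4⟩

end Pool.Agent.Results.MP_f00d09_gt.ConsistentlyNo
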